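import Mathlib

/-!
# Translative coverings of boxes by boxes with sides at most one

A family of boxes with sides at most `1` and total volume at least `∏ (1 + y k) - 1` covers the box
with sides `y k`: the boxes are cut into layers by decreasing height, the bases of each layer cover the
base (induction on the dimension).
-/

set_option autoImplicit false

namespace Pool.Agent.H97.MC

open Finset

/-- translates of the members of `S` cover the box with sides `y k` -/
def CovS {d : ℕ} {ι : Type} (y : Fin d → ℝ) (S : Finset ι) (a : ι → Fin d → ℝ) : Prop :=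
  ∃ v : ι → Fin d → ℝ, ∀ x : Fin d → ℝ, (∀ k, 0 ≤ x k ∧ x k ≤ y k) →
    ∃ i ∈ S, ∀ k, v i k ≤ x k ∧ x k ≤ v i k + a i k

lemma select {ι : Type} [DecidableEq ι] (β b : ι → ℝ) (V : ℝ) (hV : 0 ≤ V) (S : Finset ι) :
    S.Nonempty → V ≤ ∑ i ∈ S, β i →
    ∃ L ⊆ S, ∃ l ∈ L, V ≤ ∑ i ∈ L, β i ∧ ∑ i ∈ L.erase l, β i ≤ V ∧ (∀ i ∈ L, b l ≤ b i) ∧
      ∀ i ∈ S \ L, b i ≤ b l := by
  induction S using Finset.induction_on_min_value b with
  | empty => exact fun h => absurd h (by simp)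
  | insert j S hj hmin ih =>
    intro _ hsum
    by_cases hc : S.Nonempty ∧ V ≤ ∑ i ∈ S, β i
    · obtain ⟨L, hL, l, hl, h1, h2, h3, h4⟩ := ih hc.1 hc.2
      refine ⟨L, hL.trans (subset_insert _ _), l, hl, h1, h2, h3, ?_⟩
      intro i hi
      rw [mem_sdiff, mem_insert] at hi
      rcases hi.1 with h | h
      · rw [h]
        exact hmin l (hL hl)
      · exact h4 i (mem_sdiff.2 ⟨h, hi.2⟩)
    · refine ⟨insert j S, subset_rfl, j, mem_insert_self _ _, hsum, ?_, ?_, ?_⟩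
      · rw [erase_insert hj]
        by_cases hS : S.Nonempty
        · by_contra hcc
          exact hc ⟨hS, (not_le.1 hcc).le⟩
        · rw [not_nonempty_iff_eq_empty.1 hS, sum_empty]
          exact hV
      · intro i hi
        rcases mem_insert.1 hi with h | h
        · rw [h]
        · exact hmin i h
      · intro i hi
        rw [sdiff_self] at hi
        exact absurd hi (notMem_empty _)

/-- the members of `S` cover the layer of height `h` over the box with sides `y k` -/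
def CovH {d : ℕ} {ι : Type} (y : Fin d → ℝ) (S : Finset ι) (a : ι → Fin (d + 1) → ℝ) (h : ℝ) : Prop :=
  ∃ v : ι → Fin (d + 1) → ℝ, ∀ x : Fin (d + 1) → ℝ, (∀ k : Fin d, 0 ≤ x k.succ ∧ x k.succ ≤ y k) →
    0 ≤ x 0 → x 0 ≤ h → ∃ i ∈ S, ∀ k, v i k ≤ x k ∧ x k ≤ v i k + a i k

lemma covH_base {d : ℕ} {ι : Type} (y : Fin d → ℝ) (L : Finset ι) (a : ι → Fin (d + 1) → ℝ) (m h : ℝ)
    (hh : h ≤ m) (hL : CovS y L (fun i => Fin.tail (a i))) (hm : ∀ i ∈ L, m ≤ a i 0) : CovH y L a h := by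
  obtain ⟨v, hv⟩ := hL
  refine ⟨fun i => Fin.cons 0 (v i), fun x hx h0 h1 => ?_⟩
  obtain ⟨i, hi, hi'⟩ := hv (Fin.tail x) hx
  refine ⟨i, hi, ?_⟩
  intro k
  refine Fin.cases ?_ (fun k => ?_) k
  · have := hm i hi
    show (0 : ℝ) ≤ x 0 ∧ x 0 ≤ 0 + a i 0
    constructor <;> linarith
  · exact hi' k

lemma covH_join {d : ℕ} {ι : Type} [DecidableEq ι] (y : Fin d → ℝ) (L M : Finset ι)
    (a : ι → Fin (d + 1) → ℝ) (m h : ℝ)
    (hd : Disjoint L M) (h1 : CovH y L a m) (h2 : CovH y M a (h - m)) : CovH y (L ∪ M) a h := by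
  obtain ⟨v, hv⟩ := h1
  obtain ⟨u, hu⟩ := h2
  refine ⟨fun i => if i ∈ L then v i else Function.update (u i) 0 (u i 0 + m), fun x hx h0 hy => ?_⟩
  by_cases hxm : x 0 ≤ m
  · obtain ⟨i, hi, h⟩ := hv x hx h0 hxm
    refine ⟨i, mem_union_left _ hi, ?_⟩
    beta_reduce
    rw [if_pos hi]
    exact h
  · push Not at hxm
    obtain ⟨i, hi, h⟩ := hu (Function.update x 0 (x 0 - m)) (fun k => by
        rw [Function.update_of_ne (Fin.succ_ne_zero k)]
        exact hx k) (by rw [Function.update_self]; linarith) (by rw [Function.update_self]; linarith)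
    refine ⟨i, mem_union_right _ hi, ?_⟩
    beta_reduce
    rw [if_neg (fun hL => (disjoint_left.1 hd hL hi))]
    intro k
    have hk := h k
    by_cases hk0 : k = 0
    · subst hk0
      rw [Function.update_self] at hk ⊢
      constructor <;> linarith
    · rw [Function.update_of_ne hk0] at hk ⊢
      exact hk

lemma covH_mono {d : ℕ} {ι : Type} {y : Fin d → ℝ} {S S' : Finset ι} (h : S ⊆ S')
    {a : ι → Fin (d + 1) → ℝ} {z : ℝ} (hc : CovH y S a z) : CovH y S' a z := by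
  obtain ⟨v, hv⟩ := hc
  refine ⟨v, fun x hx h0 h1 => ?_⟩
  obtain ⟨i, hi, h'⟩ := hv x hx h0 h1
  exact ⟨i, h hi, h'⟩

/-- the base volume -/
def bv {d : ℕ} (a : Fin (d + 1) → ℝ) : ℝ := ∏ k : Fin d, a k.succ

/-- the volume -/
def vol {d : ℕ} (a : Fin d → ℝ) : ℝ := ∏ k, a k

lemma vol_succ {d : ℕ} (a : Fin (d + 1) → ℝ) : vol a = a 0 * bv a := by
  unfold vol bv
  rw [Fin.prod_univ_succ]

lemma bv_nonneg {d : ℕ} (a : Fin (d + 1) → ℝ) (h : ∀ k, 0 < a k ∧ a k ≤ 1) : 0 ≤ bv a :=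
  prod_nonneg fun k _ => (h k.succ).1.le

lemma bv_le_one {d : ℕ} (a : Fin (d + 1) → ℝ) (h : ∀ k, 0 < a k ∧ a k ≤ 1) : bv a ≤ 1 :=
  prod_le_one (fun k _ => (h k.succ).1.le) fun k _ => (h k.succ).2

/-- stacking layers -/
lemma stack {d : ℕ} {ι : Type} [DecidableEq ι] (y : Fin d → ℝ) (V : ℝ) (hV : 0 ≤ V)
    (a : ι → Fin (d + 1) → ℝ)
    (hbase : ∀ L : Finset ι, L.Nonempty → (∀ i ∈ L, ∀ k, 0 < a i k ∧ a i k ≤ 1) →
      V ≤ ∑ i ∈ L, bv (a i) → CovS y L (fun i => Fin.tail (a i))) (S : Finset ι) :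
    ∀ H h : ℝ, S.Nonempty → 0 ≤ h → (∀ i ∈ S, ∀ k, 0 < a i k ∧ a i k ≤ 1) → (∀ i ∈ S, a i 0 ≤ H) →
      V * H + (V + 1) * h ≤ ∑ i ∈ S, vol (a i) → CovH y S a h := by
  induction S using Finset.strongInduction with
  | H S ih =>
    intro H h hne hy hpos hH hsum
    obtain ⟨i0, hi0⟩ := hne
    have hH0 : 0 < H := lt_of_lt_of_le (hpos i0 hi0 0).1 (hH i0 hi0)
    have hb0 : ∀ i ∈ S, 0 ≤ bv (a i) := fun i hi => bv_nonneg _ (hpos i hi)
    have hb1 : ∀ i ∈ S, bv (a i) ≤ 1 := fun i hi => bv_le_one _ (hpos i hi)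
    have hVS : V ≤ ∑ i ∈ S, bv (a i) := by
      have h1 : ∑ i ∈ S, vol (a i) ≤ H * ∑ i ∈ S, bv (a i) := by
        rw [mul_sum]
        apply sum_le_sum
        intro i hi
        rw [vol_succ]
        exact mul_le_mul_of_nonneg_right (hH i hi) (hb0 i hi)
      have h2 : 0 ≤ (V + 1) * h := by positivity
      have h3 : H * V ≤ H * ∑ i ∈ S, bv (a i) := by linarith
      exact le_of_mul_le_mul_left h3 hH0
    obtain ⟨L, hL, l, hl, h1, h2, h3, h4⟩ := select (fun i => bv (a i)) (fun i => a i 0) V hV S ⟨i0, hi0⟩ hVS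
    have hcov : CovS y L (fun i => Fin.tail (a i)) := hbase L ⟨l, hl⟩ (fun i hi => hpos i (hL hi)) h1
    by_cases hym : h ≤ a l 0
    · exact covH_mono hL (covH_base y L a (a l 0) h hym hcov h3)
    · push Not at hym
      have hvL : ∑ i ∈ L, vol (a i) ≤ H * V + a l 0 := by
        rw [← add_sum_erase L _ hl, add_comm]
        have e1 : ∑ i ∈ L.erase l, vol (a i) ≤ H * V := by
          calc ∑ i ∈ L.erase l, vol (a i) ≤ ∑ i ∈ L.erase l, H * bv (a i) := by
                apply sum_le_sum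
                intro i hi
                have hi' := hL (mem_of_mem_erase hi)
                rw [vol_succ]
                exact mul_le_mul_of_nonneg_right (hH i hi') (hb0 i hi')
            _ = H * ∑ i ∈ L.erase l, bv (a i) := by rw [mul_sum]
            _ ≤ H * V := mul_le_mul_of_nonneg_left h2 hH0.le
        have e2 : vol (a l) ≤ a l 0 := by
          rw [vol_succ]
          exact mul_le_of_le_one_right (hpos l (hL hl) 0).1.le (hb1 l (hL hl))
        linarith
      have hrest : ∑ i ∈ S \ L, vol (a i) + ∑ i ∈ L, vol (a i) = ∑ i ∈ S, vol (a i) := sum_sdiff hL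
      have hV2 : V * a l 0 + (V + 1) * (h - a l 0) ≤ ∑ i ∈ S \ L, vol (a i) := by linarith
      have hm0 : 0 < a l 0 := (hpos l (hL hl) 0).1
      have hne' : (S \ L).Nonempty := by
        by_contra hc
        rw [not_nonempty_iff_eq_empty] at hc
        rw [hc, sum_empty] at hV2
        have e1 : 0 < (V + 1) * (h - a l 0) := mul_pos (by linarith) (by linarith)
        have e2 : 0 ≤ V * a l 0 := by positivity
        linarith
      have hss : S \ L ⊂ S := by
        rw [ssubset_iff_of_subset sdiff_subset]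
        exact ⟨l, hL hl, fun h => (mem_sdiff.1 h).2 hl⟩
      have hrec := ih (S \ L) hss (a l 0) (h - a l 0) hne' (by linarith)
        (fun i hi => hpos i (mem_sdiff.1 hi).1) h4 hV2
      have := covH_join y L (S \ L) a (a l 0) h disjoint_sdiff
        (covH_base y L a (a l 0) (a l 0) le_rfl hcov h3) hrec
      rwa [union_sdiff_of_subset hL] at this

lemma covS_of_covH {d : ℕ} {ι : Type} {S : Finset ι} {y : Fin (d + 1) → ℝ} {a : ι → Fin (d + 1) → ℝ}
    (h : CovH (Fin.tail y) S a (y 0)) : CovS y S a := by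
  obtain ⟨v, hv⟩ := h
  exact ⟨v, fun x hx => hv x (fun k => hx k.succ) (hx 0).1 (hx 0).2⟩

lemma prod_add_one_sub_nonneg {d : ℕ} (y : Fin d → ℝ) (hy : ∀ k, 0 ≤ y k) : 0 ≤ ∏ k, (1 + y k) - 1 := by
  have : (1 : ℝ) ≤ ∏ k, (1 + y k) := by
    have h := prod_le_prod (s := univ) (f := fun _ : Fin d => (1 : ℝ)) (g := fun k => 1 + y k)
      (fun _ _ => zero_le_one) (fun k _ => by have := hy k; linarith)
    rwa [prod_const_one] at h
  linarith

/-- finite families of total volume at least `∏ (1 + y k) - 1` -/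
theorem finite_cover (d : ℕ) : ∀ {ι : Type} (y : Fin d → ℝ) (a : ι → Fin d → ℝ) (S : Finset ι),
    (∀ k, 0 ≤ y k) → S.Nonempty →
    (∀ i ∈ S, ∀ k, 0 < a i k ∧ a i k ≤ 1) → ∏ k, (1 + y k) - 1 ≤ ∑ i ∈ S, vol (a i) → CovS y S a := by
  classical
  induction d with
  | zero =>
    intro ι y a S _ hS _ _
    obtain ⟨i, hi⟩ := hS
    exact ⟨fun _ _ => 0, fun x _ => ⟨i, hi, fun k => k.elim0⟩⟩
  | succ d ih =>
    intro ι y a S hy hS hpos hsum
    apply covS_of_covH
    have hy' : ∀ k, 0 ≤ Fin.tail y k := fun k => hy k.succ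
    refine stack (Fin.tail y) (∏ k, (1 + Fin.tail y k) - 1) (prod_add_one_sub_nonneg _ hy') a
      (fun L hL hp hs => ih (Fin.tail y) (fun i => Fin.tail (a i)) L hy' hL
      (fun i hi k => hp i hi k.succ) hs) S 1 (y 0) hS (hy 0) hpos (fun i hi => (hpos i hi 0).2) ?_
    rw [Fin.prod_univ_succ] at hsum
    have : ∏ k : Fin d, (1 + y k.succ) = ∏ k, (1 + Fin.tail y k) := rfl
    rw [this] at hsum
    linarith

end Pool.Agent.H97.MC
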