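import Mathlib
import Pool.Agent.H97.MC.Core

/-!
# Infinite families of total volume `2 ^ d - 1` and the unit cube
-/

set_option autoImplicit false

namespace Pool.Agent.H97.MC

open Finset

/-- `d ≥ 2`: every family of total volume at least `2 ^ d - 1` has a finite subfamily that covers the
unit cube -/
theorem cube_cover_pos (e : ℕ) {ι : Type} (a : ι → Fin (e + 1 + 1) → ℝ) (hpos : ∀ i k, 0 < a i k ∧ a i k ≤ 1)
    (hbig : ∀ t : ℝ, t < 2 ^ (e + 1 + 1) - 1 → ∃ S : Finset ι, t < ∑ i ∈ S, vol (a i)) :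
    ∃ S : Finset ι, CovS (fun _ => 1) S a := by
  classical
  obtain ⟨V, hVdef⟩ : ∃ V : ℝ, V = 2 ^ (e + 1) - 1 := ⟨_, rfl⟩
  have hV1 : 1 ≤ V := by
    have : (2 : ℝ) ≤ 2 ^ (e + 1) := by
      calc (2 : ℝ) = 2 ^ 1 := by norm_num
        _ ≤ 2 ^ (e + 1) := pow_le_pow_right₀ (by norm_num) (by omega)
    linarith
  have hVV : (2 : ℝ) ^ (e + 1 + 1) - 1 = 2 * V + 1 := by rw [hVdef, pow_succ (2 : ℝ) (e + 1)]; ring
  have hprod : ∀ m : ℕ, ∏ _k : Fin m, ((1 : ℝ) + 1) - 1 = 2 ^ m - 1 := by
    intro m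
    rw [prod_const, card_univ, Fintype.card_fin]
    norm_num
  rw [hVV] at hbig
  by_cases hfin : ∃ S : Finset ι, 2 * V + 1 ≤ ∑ i ∈ S, vol (a i)
  · obtain ⟨S, hS⟩ := hfin
    have hne : S.Nonempty := by
      by_contra hc
      rw [not_nonempty_iff_eq_empty] at hc
      rw [hc, sum_empty] at hS
      linarith
    exact ⟨S, finite_cover (e + 1 + 1) (fun _ => 1) a S (fun _ => zero_le_one) hne (fun i _ => hpos i)
      (by rw [hprod, hVV]; exact hS)⟩
  push Not at hfin
  have hb0 : ∀ i, 0 ≤ bv (a i) := fun i => bv_nonneg _ (hpos i)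
  have hb1 : ∀ i, bv (a i) ≤ 1 := fun i => bv_le_one _ (hpos i)
  have hv0 : ∀ i, 0 ≤ vol (a i) := fun i => by rw [vol_succ]; exact mul_nonneg (hpos i 0).1.le (hb0 i)
  have hvb : ∀ i, vol (a i) ≤ bv (a i) := fun i => by
    rw [vol_succ]; exact mul_le_of_le_one_left (hb0 i) (hpos i 0).2
  have hbase : ∀ L : Finset ι, L.Nonempty → (∀ i ∈ L, ∀ k, 0 < a i k ∧ a i k ≤ 1) →
      V ≤ ∑ i ∈ L, bv (a i) → CovS (fun _ => 1) L (fun i => Fin.tail (a i)) := fun L hL hp hs =>
    finite_cover (e + 1) (fun _ => 1) (fun i => Fin.tail (a i)) L (fun _ => zero_le_one) hL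
      (fun i hi k => hp i hi k.succ) (by rw [hprod, ← hVdef]; exact hs)
  by_cases hfull : ∃ i0, bv (a i0) = 1
  · -- a box with full base
    obtain ⟨i0, hi0⟩ := hfull
    have hh := hpos i0 0
    have hcj : CovS (fun _ => 1) {i0} (fun i => Fin.tail (a i)) := by
      refine ⟨fun _ _ => 0, fun x hx => ⟨i0, mem_singleton_self i0, fun k => ?_⟩⟩
      have h2 : a i0 k.succ = 1 := by
        by_contra hne
        have h3 : a i0 k.succ < 1 := lt_of_le_of_ne (hpos i0 k.succ).2 hne
        have h4 : bv (a i0) < 1 := by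
          unfold bv
          rw [← mul_prod_erase univ _ (mem_univ k)]
          have h5 : ∏ x ∈ univ.erase k, a i0 x.succ ≤ 1 := prod_le_one (fun k _ => (hpos i0 k.succ).1.le)
            fun k _ => (hpos i0 k.succ).2
          have h6 : a i0 k.succ * ∏ x ∈ univ.erase k, a i0 x.succ ≤ a i0 k.succ * 1 :=
            mul_le_mul_of_nonneg_left h5 (hpos i0 k.succ).1.le
          linarith
        linarith
      show (0 : ℝ) ≤ x k ∧ x k ≤ 0 + a i0 k.succ
      rw [h2, zero_add]
      exact hx k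
    obtain ⟨F, hF⟩ := hbig (2 * V + 1 - V * a i0 0) (by
      have := mul_pos (lt_of_lt_of_le one_pos hV1) hh.1
      linarith)
    have hvi : vol (a i0) = a i0 0 := by rw [vol_succ, hi0, mul_one]
    have h1 : ∑ i ∈ F, vol (a i) ≤ ∑ i ∈ F.erase i0, vol (a i) + a i0 0 := by
      by_cases hm : i0 ∈ F
      · rw [← add_sum_erase F _ hm, hvi]
        linarith
      · rw [erase_eq_of_notMem hm]
        linarith [hh.1]
    have h2 : V * 1 + (V + 1) * (1 - a i0 0) ≤ ∑ i ∈ F.erase i0, vol (a i) := by linarith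
    have hne : (F.erase i0).Nonempty := by
      by_contra hc
      rw [not_nonempty_iff_eq_empty] at hc
      rw [hc, sum_empty] at h2
      have : 0 ≤ (V + 1) * (1 - a i0 0) := mul_nonneg (by linarith) (by linarith)
      linarith
    have h3 := stack (fun _ => 1) V (by linarith) a hbase (F.erase i0) 1 (1 - a i0 0) hne (by linarith)
      (fun i _ => hpos i) (fun i _ => (hpos i 0).2) h2
    exact ⟨{i0} ∪ F.erase i0, covS_of_covH (covH_join _ {i0} (F.erase i0) a (a i0 0) 1
      (by rw [disjoint_singleton_left]; exact notMem_erase _ _)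
      (covH_base _ {i0} a (a i0 0) (a i0 0) le_rfl hcj (fun i hi => by rw [mem_singleton.1 hi])) h3)⟩
  · -- all bases smaller than the full base
    push Not at hfull
    obtain ⟨F0, hF0⟩ := hbig V (by linarith)
    have hF0b : V < ∑ i ∈ F0, bv (a i) := lt_of_lt_of_le hF0 (sum_le_sum fun i _ => hvb i)
    obtain ⟨μ, hμ, hμF⟩ : ∃ μ : ℝ, 0 < μ ∧ ∀ i ∈ F0, μ ≤ a i 0 := by
      clear hF0 hF0b
      induction F0 using Finset.induction_on with
      | empty => exact ⟨1, one_pos, by simp⟩
      | insert j F _ ihF =>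
        obtain ⟨μ, hμ, h⟩ := ihF
        refine ⟨min μ (a j 0), lt_min hμ (hpos j 0).1, fun i hi => ?_⟩
        rcases mem_insert.1 hi with h' | h'
        · rw [h']
          exact min_le_right _ _
        · exact (min_le_left _ _).trans (h i h')
    have hsumm : Summable (fun i => vol (a i)) := summable_of_sum_le hv0 (fun S => (hfin S).le)
    obtain ⟨G, hG⟩ := (summable_iff_vanishing_norm.1 hsumm) (μ / 2) (by linarith)
    have hG' : ∀ i, i ∉ G → vol (a i) < μ / 2 := by
      intro i hi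
      have := hG {i} (by rw [disjoint_singleton_left]; exact hi)
      rw [sum_singleton, Real.norm_eq_abs, abs_of_nonneg (hv0 i)] at this
      exact this
    obtain ⟨δ, hδ, hδ1, hδG⟩ : ∃ δ : ℝ, 0 < δ ∧ δ ≤ 1 / 2 ∧ ∀ i ∈ G, bv (a i) ≤ 1 - δ := by
      clear hG hG'
      induction G using Finset.induction_on with
      | empty => exact ⟨1 / 2, by norm_num, le_rfl, by simp⟩
      | insert j F _ ihF =>
        obtain ⟨δ, hδ, hδ1, h⟩ := ihF
        have hj : bv (a j) < 1 := lt_of_le_of_ne (hb1 j) (hfull j)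
        refine ⟨min δ (1 - bv (a j)), lt_min hδ (by linarith), (min_le_left _ _).trans hδ1, fun i hi => ?_⟩
        rcases mem_insert.1 hi with h' | h'
        · rw [h']
          have := min_le_right δ (1 - bv (a j))
          linarith
        · have := min_le_left δ (1 - bv (a j))
          have := h i h'
          linarith
    have hw : ∀ i, μ ≤ a i 0 → bv (a i) ≤ 1 - δ := by
      intro i hi
      by_cases hiG : i ∈ G
      · exact hδG i hiG
      · have h1 := hG' i hiG
        rw [vol_succ] at h1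
        have h2 : μ * bv (a i) ≤ a i 0 * bv (a i) := mul_le_mul_of_nonneg_right hi (hb0 i)
        have h3 : μ * bv (a i) < μ * (1 / 2) := by linarith
        have h4 := lt_of_mul_lt_mul_left h3 hμ.le
        linarith
    obtain ⟨F1, hF1⟩ := hbig (2 * V + 1 - δ * μ) (by
      have := mul_pos hδ hμ
      linarith)
    obtain ⟨F, hFdef⟩ : ∃ F : Finset ι, F = F0 ∪ F1 := ⟨_, rfl⟩
    have hF : 2 * V + 1 - δ * μ < ∑ i ∈ F, vol (a i) :=
      lt_of_lt_of_le hF1 (sum_le_sum_of_subset_of_nonneg (by rw [hFdef]; exact subset_union_right)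
        (fun i _ _ => hv0 i))
    have hF0F : F0 ⊆ F := by rw [hFdef]; exact subset_union_left
    have hVF : V ≤ ∑ i ∈ F, bv (a i) :=
      hF0b.le.trans (sum_le_sum_of_subset_of_nonneg hF0F (fun i _ _ => hb0 i))
    have hFne : F.Nonempty := by
      by_contra hc
      rw [not_nonempty_iff_eq_empty] at hc
      rw [hc, sum_empty] at hVF
      linarith
    obtain ⟨L, hL, l, hl, h1, h2, h3, h4⟩ :=
      select (fun i => bv (a i)) (fun i => a i 0) V (by linarith) F hFne hVF
    have hml : μ ≤ a l 0 := by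
      by_contra hc
      push Not at hc
      have hsub : F0 ⊆ L.erase l := by
        intro i hi
        have hi' := hμF i hi
        rw [mem_erase]
        refine ⟨fun h => ?_, ?_⟩
        · rw [h] at hi'
          linarith
        · by_contra hiL
          have := h4 i (mem_sdiff.2 ⟨hF0F hi, hiL⟩)
          linarith
      have h5 := sum_le_sum_of_subset_of_nonneg (f := fun i => bv (a i)) hsub (fun i _ _ => hb0 i)
      have h2' : ∑ i ∈ L.erase l, bv (a i) ≤ V := h2
      linarith
    have hm1 := (hpos l 0).2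
    have hvL : ∑ i ∈ L, vol (a i) ≤ V + (1 - δ) * a l 0 := by
      rw [← add_sum_erase L _ hl, add_comm]
      have e1 : ∑ i ∈ L.erase l, vol (a i) ≤ V := (sum_le_sum fun i _ => hvb i).trans h2
      have e2 : vol (a l) ≤ (1 - δ) * a l 0 := by
        rw [vol_succ, mul_comm]
        exact mul_le_mul_of_nonneg_right (hw l hml) (hpos l 0).1.le
      linarith
    have hrest : ∑ i ∈ F \ L, vol (a i) + ∑ i ∈ L, vol (a i) = ∑ i ∈ F, vol (a i) := sum_sdiff hL
    have hV2 : V * a l 0 + (V + 1) * (1 - a l 0) ≤ ∑ i ∈ F \ L, vol (a i) := by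
      have := mul_le_mul_of_nonneg_left hml hδ.le
      linarith
    have hcov : CovS (fun _ => 1) L (fun i => Fin.tail (a i)) := hbase L ⟨l, hl⟩ (fun i _ => hpos i) h1
    have hne' : (F \ L).Nonempty := by
      by_contra hc
      rw [not_nonempty_iff_eq_empty] at hc
      rw [hc, sum_empty] at hV2
      have e1 : 0 ≤ (V + 1) * (1 - a l 0) := mul_nonneg (by linarith) (by linarith)
      have e2 : 0 < V * a l 0 := mul_pos (by linarith) (hpos l 0).1
      linarith
    have hrec := stack (fun _ => 1) V (by linarith) a hbase (F \ L) (a l 0) (1 - a l 0) hne' (by linarith)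
      (fun i _ => hpos i) h4 hV2
    have := covH_join _ L (F \ L) a (a l 0) 1 disjoint_sdiff
      (covH_base _ L a (a l 0) (a l 0) le_rfl hcov h3) hrec
    rw [union_sdiff_of_subset hL] at this
    exact ⟨F, covS_of_covH this⟩

/-- from `∑'` in `[0, ∞]` to finite sums, dropping the boxes of volume zero -/
lemma big_of_tsum {d : ℕ} {ι : Type} (a : ι → Fin d → ℝ) (ha : ∀ i k, 0 ≤ a i k ∧ a i k ≤ 1) (T : ℝ)
    (hV : ENNReal.ofReal T ≤ ∑' i, ENNReal.ofReal (∏ k, a i k)) (t : ℝ) (ht : t < T) :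
    0 ≤ t → ∃ S : Finset {i // ∀ k, 0 < a i k}, t < ∑ i ∈ S, vol (a i) := by
  classical
  intro h0
  by_contra hc
  push Not at hc
  have hle : ∑' i, ENNReal.ofReal (∏ k, a i k) ≤ ENNReal.ofReal t := by
    rw [ENNReal.tsum_eq_iSup_sum]
    apply iSup_le
    intro S
    rw [← ENNReal.ofReal_sum_of_nonneg (fun i _ => prod_nonneg fun k _ => (ha i k).1)]
    apply ENNReal.ofReal_le_ofReal
    have h1 := hc (S.subtype (fun i => ∀ k, 0 < a i k))
    rw [sum_subtype_eq_sum_filter (f := fun i => vol (a i))] at h1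
    refine le_trans (le_of_eq ?_) h1
    symm
    apply sum_filter_of_ne
    intro i _ hne k
    by_contra hk
    push Not at hk
    exact hne (prod_eq_zero (mem_univ k) (le_antisymm hk (ha i k).1))
  have h2 := hV.trans hle
  rw [ENNReal.ofReal_le_ofReal_iff h0] at h2
  linarith

/-- from a subtype to the whole family -/
lemma covS_subtype {d : ℕ} {ι : Type} (y : Fin d → ℝ) (a : ι → Fin d → ℝ) (p : ι → Prop)
    (S : Finset {i // p i}) (h : CovS y S (fun i => a i)) : ∃ S' : Finset ι, CovS y S' a := by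
  classical
  obtain ⟨v, hv⟩ := h
  refine ⟨S.map (Function.Embedding.subtype p), fun i => if h : p i then v ⟨i, h⟩ else 0, fun x hx => ?_⟩
  obtain ⟨i, hi, h⟩ := hv x hx
  refine ⟨i, mem_map.2 ⟨i, hi, rfl⟩, ?_⟩
  beta_reduce
  rw [dif_pos i.2]
  exact h

/-- `d ≥ 2`: every family of total volume at least `2 ^ d - 1` has a finite subfamily that covers -/
theorem cube_cover (d : ℕ) (hd : 2 ≤ d) {ι : Type} (a : ι → Fin d → ℝ) (ha : ∀ i k, 0 ≤ a i k ∧ a i k ≤ 1)
    (hV : ENNReal.ofReal (2 ^ d - 1) ≤ ∑' i, ENNReal.ofReal (∏ k, a i k)) :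
    ∃ S : Finset ι, CovS (fun _ => 1) S a := by
  obtain ⟨e, rfl⟩ : ∃ e, d = e + 1 + 1 := ⟨d - 2, by omega⟩
  obtain ⟨S, hS⟩ := cube_cover_pos e (fun i : {i // ∀ k, 0 < a i k} => a i) (fun i k => ⟨i.2 k, (ha i k).2⟩) (by
    intro t ht
    rcases lt_or_ge t 0 with h0 | h0
    · exact ⟨∅, by rwa [sum_empty]⟩
    · exact big_of_tsum a ha _ hV t ht h0)
  exact covS_subtype _ a _ S hS

end Pool.Agent.H97.MC
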