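import Mathlib
import Pool.Agent.H97.MC.Core
import Pool.Agent.H97.MC.Cube

/-!
# Infinite families and general target boxes
-/

set_option autoImplicit false

namespace Pool.Agent.H97.MC

open Finset

lemma sel {ι : Type} [DecidableEq ι] (w : ι → ℝ) (c : ℝ) (hc : 0 < c) (G : Finset ι) :
    c ≤ ∑ i ∈ G, w i → ∃ G' ⊆ G, ∃ g ∈ G', c ≤ ∑ i ∈ G', w i ∧ ∑ i ∈ G'.erase g, w i < c := by
  induction G using Finset.induction_on with
  | empty =>
    intro h
    rw [sum_empty] at h
    linarith
  | insert j G hj ih =>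
    intro h
    by_cases hG : c ≤ ∑ i ∈ G, w i
    · obtain ⟨G', h1, g, h2, h3⟩ := ih hG
      exact ⟨G', h1.trans (subset_insert _ _), g, h2, h3⟩
    · refine ⟨insert j G, subset_rfl, j, mem_insert_self _ _, h, ?_⟩
      rw [erase_insert hj]
      exact not_le.1 hG

/-- the first layer of an infinite family -/
lemma first_layer {ι : Type} (w h : ι → ℝ) (hw : ∀ i, 0 ≤ w i ∧ w i ≤ 1) (hh : ∀ i, 0 < h i ∧ h i ≤ 1)
    (hs : Summable (fun i => h i * w i)) (V : ℝ) (hV : 0 < V) (hF : ∃ F : Finset ι, V < ∑ i ∈ F, w i) :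
    ∃ (P : Set ι) (m : ℝ), 0 < m ∧ (∀ i ∈ P, m ≤ h i) ∧ (∀ i ∉ P, h i ≤ m) ∧
      (∀ t < V, ∃ S : Finset ι, (∀ i ∈ S, i ∈ P) ∧ t < ∑ i ∈ S, w i) ∧
      ∃ g : ℝ, 0 < g ∧ ∀ S : Finset ι, (∀ i ∈ S, i ∈ P) → ∑ i ∈ S, h i * w i ≤ V + m - g := by
  classical
  obtain ⟨F, hF⟩ := hF
  obtain ⟨μ, hμ, hμF⟩ : ∃ μ : ℝ, 0 < μ ∧ μ ≤ 1 ∧ ∀ i ∈ F, μ ≤ h i := by
    clear hF
    induction F using Finset.induction_on with
    | empty => exact ⟨1, one_pos, le_rfl, by simp⟩
    | insert j F _ ihF =>
      obtain ⟨μ, hμ, hμ1, hi'⟩ := ihF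
      refine ⟨min μ (h j), lt_min hμ (hh j).1, (min_le_left _ _).trans hμ1, fun i hi => ?_⟩
      rcases mem_insert.1 hi with h' | h'
      · rw [h']
        exact min_le_right _ _
      · exact (min_le_left _ _).trans (hi' i h')
  obtain ⟨hμ1, hμF⟩ := hμF
  have hsum : ∀ p : ι → Prop, (∀ i, p i → μ ≤ h i) → Summable (fun i => if p i then w i else 0) := by
    intro p hp
    refine Summable.of_nonneg_of_le (fun i => ?_) (fun i => ?_) (hs.mul_left μ⁻¹)
    · split_ifs
      · exact (hw i).1
      · exact le_rfl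
    · split_ifs with hi
      · have h1 : μ * w i ≤ h i * w i := mul_le_mul_of_nonneg_right (hp i hi) (hw i).1
        calc w i = μ⁻¹ * (μ * w i) := by rw [← mul_assoc, inv_mul_cancel₀ hμ.ne', one_mul]
          _ ≤ μ⁻¹ * (h i * w i) := mul_le_mul_of_nonneg_left h1 (inv_nonneg.2 hμ.le)
      · exact mul_nonneg (inv_nonneg.2 hμ.le) (mul_nonneg (hh i).1.le (hw i).1)
  obtain ⟨W, hW⟩ : ∃ W : (ι → Prop) → ℝ, ∀ p, W p = ∑' i, if p i then w i else 0 := ⟨_, fun _ => rfl⟩
  have hnn : ∀ p : ι → Prop, ∀ i, 0 ≤ (if p i then w i else 0) := by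
    intro p i
    split_ifs
    · exact (hw i).1
    · exact le_rfl
  -- finite sums are below `W`
  have hle : ∀ p : ι → Prop, (∀ i, p i → μ ≤ h i) → ∀ S : Finset ι, (∀ i ∈ S, p i) → ∑ i ∈ S, w i ≤ W p := by
    intro p hp S hS
    rw [hW]
    refine le_trans (le_of_eq ?_) ((hsum p hp).sum_le_tsum S (fun i _ => hnn p i))
    exact sum_congr rfl fun i hi => by rw [if_pos (hS i hi)]
  -- `W` is the supremum of finite sums
  have hex : ∀ p : ι → Prop, (∀ i, p i → μ ≤ h i) → ∀ t < W p, ∃ S : Finset ι, (∀ i ∈ S, p i) ∧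
      t < ∑ i ∈ S, w i := by
    intro p hp t ht
    by_contra hc
    push Not at hc
    have : W p ≤ t := by
      rw [hW]
      apply (hsum p hp).tsum_le_of_sum_le
      intro S
      rw [← sum_filter]
      exact hc _ (fun i hi => (mem_filter.1 hi).2)
    linarith
  have hub : ∀ p : ι → Prop, (∀ i, p i → μ ≤ h i) → ∀ t : ℝ, (∀ S : Finset ι, (∀ i ∈ S, p i) →
      ∑ i ∈ S, w i ≤ t) → W p ≤ t := by
    intro p hp t ht
    by_contra hc
    push Not at hc
    obtain ⟨S, hS, hS'⟩ := hex p hp t hc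
    linarith [ht S hS]
  obtain ⟨A, hA⟩ : ∃ A : Set ℝ, A = {t | μ ≤ t ∧ V ≤ W (fun i => t ≤ h i)} := ⟨_, rfl⟩
  have hμA : μ ∈ A := by
    rw [hA]
    refine ⟨le_rfl, hF.le.trans (hle _ (fun i hi => hi) F hμF)⟩
  have hA1 : ∀ t ∈ A, t ≤ 1 := by
    intro t ht
    rw [hA] at ht
    by_contra hc
    push Not at hc
    have h1 : W (fun i => t ≤ h i) ≤ 0 := by
      apply hub _ (fun i hi => ht.1.trans hi)
      intro S hS
      rw [sum_eq_zero]
      intro i hi
      linarith [hS i hi, (hh i).2]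
    linarith [ht.2]
  have hbdd : BddAbove A := ⟨1, hA1⟩
  obtain ⟨m, hm⟩ : ∃ m : ℝ, m = sSup A := ⟨_, rfl⟩
  have hμm : μ ≤ m := by rw [hm]; exact le_csSup hbdd hμA
  have hm0 : 0 < m := lt_of_lt_of_le hμ hμm
  have hm1 : m ≤ 1 := by rw [hm]; exact csSup_le ⟨μ, hμA⟩ hA1
  -- left continuity
  have hWm : V ≤ W (fun i => m ≤ h i) := by
    by_contra hc
    push Not at hc
    obtain ⟨F1, hF1⟩ := (summable_iff_vanishing_norm.1 (hsum (fun i => μ ≤ h i) (fun i hi => hi)))
      ((V - W (fun i => m ≤ h i)) / 2) (by linarith)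
    obtain ⟨b, hb, hbF⟩ : ∃ b < m, ∀ i ∈ F1, h i < m → h i ≤ b := by
      clear hF1
      induction F1 using Finset.induction_on with
      | empty => exact ⟨m - 1, by linarith, by simp⟩
      | insert j F _ ihF =>
        obtain ⟨b, hb, hi'⟩ := ihF
        by_cases hj : h j < m
        · refine ⟨max b (h j), max_lt hb hj, fun i hi hi2 => ?_⟩
          rcases mem_insert.1 hi with h' | h'
          · rw [h']
            exact le_max_right _ _
          · exact (hi' i h' hi2).trans (le_max_left _ _)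
        · refine ⟨b, hb, fun i hi hi2 => ?_⟩
          rcases mem_insert.1 hi with h' | h'
          · rw [h'] at hi2
            exact absurd hi2 hj
          · exact hi' i h' hi2
    obtain ⟨t, htA, hbt⟩ := exists_lt_of_lt_csSup ⟨μ, hμA⟩ (by rw [← hm]; exact hb)
    have htm : t ≤ m := by rw [hm]; exact le_csSup hbdd htA
    rw [hA] at htA
    obtain ⟨ht1, ht2⟩ := htA
    have h1 : ∀ S : Finset ι, (∀ i ∈ S, t ≤ h i ∧ h i < m) →
        ∑ i ∈ S, w i < (V - W (fun i => m ≤ h i)) / 2 := by
      intro S hS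
      have h2 := hF1 S (by
        rw [disjoint_left]
        intro i hi hiF
        have := hbF i hiF (hS i hi).2
        linarith [(hS i hi).1])
      rw [Real.norm_eq_abs] at h2
      have h3 : ∑ i ∈ S, (if μ ≤ h i then w i else 0) = ∑ i ∈ S, w i :=
        sum_congr rfl fun i hi => by rw [if_pos (ht1.trans (hS i hi).1)]
      rw [h3] at h2
      exact lt_of_le_of_lt (le_abs_self _) h2
    have h4 : W (fun i => t ≤ h i ∧ h i < m) ≤ (V - W (fun i => m ≤ h i)) / 2 :=
      hub _ (fun i hi => ht1.trans hi.1) _ fun S hS => (h1 S hS).le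
    have h5 : W (fun i => t ≤ h i) ≤ W (fun i => m ≤ h i) + W (fun i => t ≤ h i ∧ h i < m) := by
      apply hub _ (fun i hi => ht1.trans hi)
      intro S hS
      rw [← sum_filter_add_sum_filter_not S (fun i => m ≤ h i)]
      apply add_le_add
      · exact hle (fun i => m ≤ h i) (fun i hi => hμm.trans hi) _ (fun i hi => (mem_filter.1 hi).2)
      · exact hle (fun i => t ≤ h i ∧ h i < m) (fun i hi => ht1.trans hi.1) _
          (fun i hi => ⟨hS i (mem_filter.1 hi).1, not_le.1 (mem_filter.1 hi).2⟩)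
    linarith
  -- the boxes strictly above `m`
  have hAfin : ∀ S : Finset ι, (∀ i ∈ S, m < h i) → ∑ i ∈ S, w i < V := by
    intro S hS
    rcases S.eq_empty_or_nonempty with h1 | h1
    · rw [h1, sum_empty]
      exact hV
    · obtain ⟨j, hj, hjmin⟩ := S.exists_min_image h h1
      by_contra hc
      push Not at hc
      have h2 : h j ∈ A := by
        rw [hA]
        exact ⟨hμm.trans (hS j hj).le,
          hc.trans (hle (fun i => h j ≤ h i) (fun i hi => (hμm.trans (hS j hj).le).trans hi) S hjmin)⟩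
      have h3 : h j ≤ m := by rw [hm]; exact le_csSup hbdd h2
      linarith [hS j hj]
  have hAK : ∀ i, m < h i → μ ≤ h i := fun i hi => hμm.trans hi.le
  have hWA : W (fun i => m < h i) ≤ V := hub _ hAK _ fun S hS => (hAfin S hS).le
  have hWA0 : 0 ≤ W (fun i => m < h i) := by
    have := hle (fun i => m < h i) hAK ∅ (by simp)
    rwa [sum_empty] at this
  have hhw : ∀ S : Finset ι, ∑ i ∈ S, h i * w i ≤ ∑ i ∈ S, w i := fun S =>
    sum_le_sum fun i _ => mul_le_of_le_one_left (hw i).1 (hh i).2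
  rcases hWA.lt_or_eq with hlt | heq
  · by_cases hG : ∃ G : Finset ι, (∀ i ∈ G, h i = m) ∧ V - W (fun i => m < h i) ≤ ∑ i ∈ G, w i
    · obtain ⟨G0, hG0, hG1⟩ := hG
      obtain ⟨G, hGG, g, hg, hG2, hG3⟩ := sel w (V - W (fun i => m < h i)) (by linarith) G0 hG1
      have hGm : ∀ i ∈ G, h i = m := fun i hi => hG0 i (hGG hi)
      refine ⟨{i | m < h i ∨ i ∈ G}, m, hm0, ?_, ?_, ?_, V - W (fun i => m < h i) - ∑ i ∈ G.erase g, w i,
        by linarith, ?_⟩
      · rintro i (hi | hi)
        · exact hi.le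
        · exact (hGm i hi).ge
      · intro i hi
        by_contra hc
        push Not at hc
        exact hi (Or.inl hc)
      · intro t ht
        obtain ⟨S, hS1, hS2⟩ := hex (fun i => m < h i) hAK (t - ∑ i ∈ G, w i) (by linarith)
        refine ⟨S ∪ G, fun i hi => ?_, ?_⟩
        · rcases mem_union.1 hi with h' | h'
          · exact Or.inl (hS1 i h')
          · exact Or.inr h'
        · rw [sum_union (by
            rw [disjoint_left]
            intro i hi hiG
            linarith [hS1 i hi, hGm i hiG])]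
          linarith
      · intro S hS
        rw [← sum_filter_add_sum_filter_not S (fun i => m < h i)]
        have h1 : ∑ i ∈ S.filter (fun i => m < h i), h i * w i ≤ W (fun i => m < h i) :=
          (hhw _).trans (hle _ hAK _ fun i hi => (mem_filter.1 hi).2)
        have h2 : ∑ i ∈ S.filter (fun i => ¬ m < h i), h i * w i ≤ ∑ i ∈ G, h i * w i := by
          apply sum_le_sum_of_subset_of_nonneg
          · intro i hi
            rcases hS i (mem_filter.1 hi).1 with h' | h'
            · exact absurd h' (mem_filter.1 hi).2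
            · exact h'
          · intro i _ _
            exact mul_nonneg (hh i).1.le (hw i).1
        have h3 : ∑ i ∈ G, h i * w i ≤ ∑ i ∈ G.erase g, w i + m := by
          rw [← sum_erase_add G _ hg]
          apply add_le_add (hhw _)
          rw [hGm g hg]
          exact mul_le_of_le_one_right hm0.le (hw g).2
        linarith
    · push Not at hG
      refine ⟨{i | m ≤ h i}, m, hm0, fun i hi => hi, fun i hi => (not_le.1 hi).le, ?_, m, hm0, ?_⟩
      · intro t ht
        exact hex (fun i => m ≤ h i) (fun i hi => hμm.trans hi) t (lt_of_lt_of_le ht hWm)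
      · intro S hS
        refine (hhw S).trans ?_
        rw [← sum_filter_add_sum_filter_not S (fun i => m < h i)]
        have h1 : ∑ i ∈ S.filter (fun i => m < h i), w i ≤ W (fun i => m < h i) :=
          hle _ hAK _ fun i hi => (mem_filter.1 hi).2
        have h2 := hG (S.filter (fun i => ¬ m < h i)) (fun i hi =>
          le_antisymm (not_lt.1 (mem_filter.1 hi).2) (hS i (mem_filter.1 hi).1))
        linarith
  · refine ⟨{i | m < h i}, m, hm0, fun i hi => le_of_lt hi, fun i hi => not_lt.1 hi, ?_, m, hm0, ?_⟩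
    · intro t ht
      exact hex (fun i => m < h i) hAK t (by rw [heq]; exact ht)
    · intro S hS
      have h1 : ∑ i ∈ S, w i ≤ W (fun i => m < h i) := hle _ hAK S hS
      have h2 := hhw S
      linarith

/-- translates of the members of the family cover the box with sides `y k` -/
def Cov {d : ℕ} {ι : Type} (y : Fin d → ℝ) (a : ι → Fin d → ℝ) : Prop :=
  ∃ v : ι → Fin d → ℝ, ∀ x : Fin d → ℝ, (∀ k, 0 ≤ x k ∧ x k ≤ y k) →
    ∃ i, ∀ k, v i k ≤ x k ∧ x k ≤ v i k + a i k

lemma cov_of_covS {d : ℕ} {ι : Type} {y : Fin d → ℝ} {a : ι → Fin d → ℝ} {S : Finset ι}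
    (h : CovS y S a) : Cov y a := by
  obtain ⟨v, hv⟩ := h
  exact ⟨v, fun x hx => let ⟨i, _, h⟩ := hv x hx; ⟨i, h⟩⟩

/-- intervals of total length `y` -/
lemma line {ι : Type} (c : ι → ℝ) (hpos : ∀ i, 0 < c i) (y : ℝ) (hsum : HasSum c y) (hinf : Infinite ι) :
    ∃ v : ι → ℝ, ∀ x : ℝ, 0 ≤ x → x ≤ y → ∃ i, v i ≤ x ∧ x ≤ v i + c i := by
  have hcount : Countable ι := by
    have h := hsum.summable.countable_support
    have h2 : Function.support c = Set.univ := by
      ext i
      simp [(hpos i).ne']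
    rw [h2] at h
    exact Set.countable_univ_iff.1 h
  obtain ⟨hden⟩ := nonempty_denumerable ι
  obtain ⟨e⟩ : Nonempty (ι ≃ ℕ) := ⟨Denumerable.eqv ι⟩
  have hs : HasSum (fun n => c (e.symm n)) y := (Equiv.hasSum_iff e.symm).2 hsum
  have hs1 : HasSum (fun n => c (e.symm (n + 1))) (y - c (e.symm 0)) := by
    have := (hasSum_nat_add_iff' (f := fun n => c (e.symm n)) 1).2 hs
    simpa using this
  have ht := hs1.tendsto_sum_nat
  refine ⟨fun i => if e i = 0 then y - c i else ∑ m ∈ range (e i - 1), c (e.symm (m + 1)), fun x h0 h1 => ?_⟩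
  by_cases hx : y - c (e.symm 0) ≤ x
  · refine ⟨e.symm 0, ?_⟩
    simp only [Equiv.apply_symm_apply, if_true]
    constructor <;> linarith
  · push Not at hx
    have hex : ∃ n, x < ∑ m ∈ range n, c (e.symm (m + 1)) := (ht.eventually (lt_mem_nhds hx)).exists
    classical
    obtain ⟨n, hn⟩ : ∃ n, n = Nat.find hex := ⟨_, rfl⟩
    have hn1 : x < ∑ m ∈ range n, c (e.symm (m + 1)) := by
      rw [hn]
      exact Nat.find_spec hex
    have hn0 : n ≠ 0 := by
      intro h
      rw [h, range_zero, sum_empty] at hn1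
      linarith
    obtain ⟨k, rfl⟩ : ∃ k, n = k + 1 := ⟨n - 1, by omega⟩
    have hk : ∑ m ∈ range k, c (e.symm (m + 1)) ≤ x := by
      have := Nat.find_min hex (m := k) (by omega)
      exact not_lt.1 this
    refine ⟨e.symm (k + 1), ?_⟩
    simp only [Equiv.apply_symm_apply]
    rw [if_neg (by omega), Nat.add_sub_cancel]
    rw [sum_range_succ] at hn1
    exact ⟨hk, hn1.le⟩

/-- families of total volume at least `∏ (1 + y k) - 1`, with positive sides -/
theorem cover_pos (e : ℕ) : ∀ {ι : Type} (y : Fin (e + 1) → ℝ) (a : ι → Fin (e + 1) → ℝ), (∀ k, 0 < y k) →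
    (∀ i k, 0 < a i k ∧ a i k ≤ 1) →
    (∀ t : ℝ, t < ∏ k, (1 + y k) - 1 → ∃ S : Finset ι, t < ∑ i ∈ S, vol (a i)) → Cov y a := by
  classical
  induction e with
  | zero =>
    intro ι y a hy hpos hbig
    have h1 : ∏ k : Fin (0 + 1), (1 + y k) - 1 = y 0 := by
      rw [Fin.prod_univ_succ, Fin.prod_univ_zero]
      ring
    have hv : ∀ i, vol (a i) = a i 0 := by
      intro i
      unfold vol
      rw [Fin.prod_univ_succ, Fin.prod_univ_zero, mul_one]
    by_cases hfin : ∃ S : Finset ι, ∏ k : Fin (0 + 1), (1 + y k) - 1 ≤ ∑ i ∈ S, vol (a i)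
    · obtain ⟨S, hS⟩ := hfin
      have hne : S.Nonempty := by
        by_contra hc
        rw [not_nonempty_iff_eq_empty] at hc
        rw [hc, sum_empty, h1] at hS
        linarith [hy 0]
      exact cov_of_covS (finite_cover (0 + 1) y a S (fun k => (hy k).le) hne (fun i _ => hpos i) hS)
    · push Not at hfin
      simp only [hv, h1] at hfin hbig
      have hlub : IsLUB (Set.range fun S : Finset ι => ∑ i ∈ S, a i 0) (y 0) := by
        constructor
        · rintro _ ⟨S, rfl⟩
          exact (hfin S).le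
        · intro b hb
          by_contra hc
          push Not at hc
          obtain ⟨S, hS⟩ := hbig b hc
          exact absurd (hb ⟨S, rfl⟩) (not_le.2 hS)
      have hsum : HasSum (fun i => a i 0) (y 0) :=
        hasSum_of_isLUB_of_nonneg _ (fun i => (hpos i 0).1.le) hlub
      have hinf : Infinite ι := by
        by_contra hc
        rw [not_infinite_iff_finite] at hc
        have := Fintype.ofFinite ι
        obtain ⟨S, hS⟩ := hbig _ (hfin univ)
        exact absurd (sum_le_sum_of_subset_of_nonneg (subset_univ S) (fun i _ _ => (hpos i 0).1.le))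
          (not_le.2 hS)
      obtain ⟨v, hv⟩ := line (fun i => a i 0) (fun i => (hpos i 0).1) (y 0) hsum hinf
      refine ⟨fun i _ => v i, fun x hx => ?_⟩
      obtain ⟨i, hi⟩ := hv (x 0) (hx 0).1 (hx 0).2
      refine ⟨i, fun k => ?_⟩
      have hk : k = 0 := Subsingleton.elim (α := Fin 1) k 0
      rw [hk]
      exact hi
  | succ e ih =>
    intro ι y a hy hpos hbig
    obtain ⟨V, hVdef⟩ : ∃ V : ℝ, V = ∏ k, (1 + Fin.tail y k) - 1 := ⟨_, rfl⟩
    have hy' : ∀ k, 0 < Fin.tail y k := fun k => hy k.succ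
    have hV : 0 < V := by
      have h1 : ∏ k : Fin (e + 1), (1 + Fin.tail y k) = (1 + Fin.tail y 0) *
        ∏ k : Fin e, (1 + Fin.tail y k.succ) := Fin.prod_univ_succ _
      have h2 := prod_add_one_sub_nonneg (fun k : Fin e => Fin.tail y k.succ) (fun k => (hy' _).le)
      have h3 := hy' 0
      rw [hVdef, h1]
      nlinarith
    have hVV : ∏ k, (1 + y k) - 1 = V + (V + 1) * y 0 := by
      rw [hVdef, Fin.prod_univ_succ]
      have : ∏ k : Fin (e + 1), (1 + y k.succ) = ∏ k, (1 + Fin.tail y k) := rfl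
      rw [this]
      ring
    have hy0 : 0 < y 0 := hy 0
    have hp0 : 0 < (V + 1) * y 0 := mul_pos (by linarith) hy0
    rw [hVV] at hbig
    by_cases hfin : ∃ S : Finset ι, V + (V + 1) * y 0 ≤ ∑ i ∈ S, vol (a i)
    · obtain ⟨S, hS⟩ := hfin
      have hne : S.Nonempty := by
        by_contra hc
        rw [not_nonempty_iff_eq_empty] at hc
        rw [hc, sum_empty] at hS
        linarith
      exact cov_of_covS (finite_cover (e + 1 + 1) y a S (fun k => (hy k).le) hne (fun i _ => hpos i)
        (by rw [hVV]; exact hS))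
    push Not at hfin
    have hb0 : ∀ i, 0 ≤ bv (a i) := fun i => bv_nonneg _ (hpos i)
    have hb1 : ∀ i, bv (a i) ≤ 1 := fun i => bv_le_one _ (hpos i)
    have hvb : ∀ i, vol (a i) ≤ bv (a i) := fun i => by
      rw [vol_succ]; exact mul_le_of_le_one_left (hb0 i) (hpos i 0).2
    have hsumm : Summable (fun i => a i 0 * bv (a i)) :=
      summable_of_sum_le (fun i => mul_nonneg (hpos i 0).1.le (hb0 i)) (fun S => by
        have h := (hfin S).le
        simp only [vol_succ] at h
        exact h)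
    obtain ⟨P, m, hm0, hP1, hP2, hP3, g, hg, hP4⟩ := first_layer (fun i => bv (a i)) (fun i => a i 0)
      (fun i => ⟨hb0 i, hb1 i⟩) (fun i => hpos i 0) hsumm V hV (by
        obtain ⟨F, hF⟩ := hbig V (by linarith)
        exact ⟨F, lt_of_lt_of_le hF (sum_le_sum fun i _ => hvb i)⟩)
    -- the first layer
    obtain ⟨v, hv⟩ := ih (Fin.tail y) (fun i : {i // i ∈ P} => Fin.tail (a i)) hy'
      (fun i k => hpos i k.succ) (by
        intro t ht
        rw [← hVdef] at ht
        obtain ⟨S, hS1, hS2⟩ := hP3 t ht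
        refine ⟨S.subtype (fun i => i ∈ P), ?_⟩
        rw [sum_subtype_eq_sum_filter (f := fun i => vol (Fin.tail (a i))), filter_true_of_mem hS1]
        exact hS2)
    by_cases hmy : y 0 ≤ m
    · refine ⟨fun i => if h : i ∈ P then Fin.cons 0 (v ⟨i, h⟩) else 0, fun x hx => ?_⟩
      obtain ⟨⟨i, hi⟩, h⟩ := hv (Fin.tail x) (fun k => hx k.succ)
      refine ⟨i, ?_⟩
      beta_reduce
      rw [dif_pos hi]
      intro k
      refine Fin.cases ?_ (fun k => ?_) k
      · show (0 : ℝ) ≤ x 0 ∧ x 0 ≤ 0 + a i 0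
        have h1 := hP1 i hi
        have h2 := hx 0
        constructor
        · exact h2.1
        · linarith [h2.2]
      · exact h k
    · push Not at hmy
      -- the other layers
      obtain ⟨S, hS⟩ := hbig (V + (V + 1) * y 0 - g) (by linarith)
      have hS1 : ∑ i ∈ S.filter (fun i => i ∈ P), vol (a i) ≤ V + m - g := by
        have h := hP4 (S.filter (fun i => i ∈ P)) (fun i hi => (mem_filter.1 hi).2)
        refine le_trans (le_of_eq ?_) h
        exact sum_congr rfl fun i _ => vol_succ (a i)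
      have hS2 := sum_filter_add_sum_filter_not S (fun i => i ∈ P) (fun i => vol (a i))
      have hS3 : V * m + (V + 1) * (y 0 - m) ≤ ∑ i ∈ S.filter (fun i => i ∉ P), vol (a i) := by linarith
      have hne : (S.filter (fun i => i ∉ P)).Nonempty := by
        by_contra hc
        rw [not_nonempty_iff_eq_empty] at hc
        rw [hc, sum_empty] at hS3
        have h1 := mul_pos hV hm0
        have h2 : 0 ≤ (V + 1) * (y 0 - m) := mul_nonneg (by linarith) (by linarith)
        linarith
      obtain ⟨u, hu⟩ := stack (Fin.tail y) V hV.le a (fun L hL hp hs =>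
        finite_cover (e + 1) (Fin.tail y) (fun i => Fin.tail (a i)) L (fun k => (hy' k).le) hL
          (fun i hi k => hp i hi k.succ) (by rw [← hVdef]; exact hs)) (S.filter (fun i => i ∉ P)) m (y 0 - m)
        hne (by linarith) (fun i _ => hpos i) (fun i hi => hP2 i (mem_filter.1 hi).2) hS3
      refine ⟨fun i => if h : i ∈ P then Fin.cons 0 (v ⟨i, h⟩) else Function.update (u i) 0 (u i 0 + m),
        fun x hx => ?_⟩
      by_cases hxm : x 0 ≤ m
      · obtain ⟨⟨i, hi⟩, h⟩ := hv (Fin.tail x) (fun k => hx k.succ)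
        refine ⟨i, ?_⟩
        beta_reduce
        rw [dif_pos hi]
        intro k
        refine Fin.cases ?_ (fun k => ?_) k
        · show (0 : ℝ) ≤ x 0 ∧ x 0 ≤ 0 + a i 0
          have h1 := hP1 i hi
          have h2 := hx 0
          constructor
          · exact h2.1
          · linarith [h2.2]
        · exact h k
      · push Not at hxm
        have hx0 := hx 0
        obtain ⟨i, hi, h⟩ := hu (Function.update x 0 (x 0 - m)) (fun k => by
            rw [Function.update_of_ne (Fin.succ_ne_zero k)]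
            exact hx k.succ) (by rw [Function.update_self]; linarith)
            (by rw [Function.update_self]; linarith)
        refine ⟨i, ?_⟩
        beta_reduce
        rw [dif_neg (mem_filter.1 hi).2]
        intro k
        have hk := h k
        by_cases hk0 : k = 0
        · subst hk0
          rw [Function.update_self] at hk ⊢
          constructor <;> linarith
        · rw [Function.update_of_ne hk0] at hk ⊢
          exact hk

/-- all families of total volume at least `∏ (1 + y k) - 1` -/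
theorem cover (d : ℕ) (hd : 1 ≤ d) (y : Fin d → ℝ) (hy : ∀ k, 0 < y k) {ι : Type} (a : ι → Fin d → ℝ)
    (ha : ∀ i k, 0 ≤ a i k ∧ a i k ≤ 1)
    (hV : ENNReal.ofReal (∏ k, (1 + y k) - 1) ≤ ∑' i, ENNReal.ofReal (∏ k, a i k)) : Cov y a := by
  classical
  obtain ⟨e, rfl⟩ : ∃ e, d = e + 1 := ⟨d - 1, by omega⟩
  obtain ⟨v, hv⟩ := cover_pos e y (fun i : {i // ∀ k, 0 < a i k} => a i) hy (fun i k => ⟨i.2 k, (ha i k).2⟩) (by
    intro t ht
    rcases lt_or_ge t 0 with h0 | h0
    · exact ⟨∅, by rwa [sum_empty]⟩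
    · exact big_of_tsum a ha _ hV t ht h0)
  refine ⟨fun i => if h : ∀ k, 0 < a i k then v ⟨i, h⟩ else 0, fun x hx => ?_⟩
  obtain ⟨⟨i, hi⟩, h⟩ := hv x hx
  refine ⟨i, ?_⟩
  beta_reduce
  rw [dif_pos hi]
  exact h

end Pool.Agent.H97.MC
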